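import Pool.Agent.H606R2.MinRank.PolyT
import Pool.Agent.ER.Hard

/-!
# The minimum rank problem is `∃ℝ`-hard for every constant rank bound `r ≥ 2`

The reduction of `Pool.Agent.H606R2.MinRank` sends a system of equations `x = 1`, `x + y = z`,
`x y = z` to a variable matrix whose minimum rank is at most `2` if the system is solvable and at
least `4` otherwise. Adding an identity matrix of size `r - 2` as a diagonal block adds `r - 2` to
all ranks.
-/

set_option autoImplicit false

namespace Pool.Agent.Results.MP_51fc0b_lc.ConstantRankBound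

open Pool.Agent.NPC Pool.Agent.H606R2.MinRank

/-- The decision problem `MinRank_r`, for a constant `r`: given a square matrix whose entries are
rational constants or variables (a variable may occur several times), can real values be given to
the variables so that the rank is at most `r`? -/
def MinRank (r : ℕ) (M : VarMatrix) : Prop := ∃ a : ℕ → ℝ, (M.at a).rank ≤ r

theorem rank_fromBlocks_diag {K : Type*} [Field K] {m n : Type*} [Fintype m] [DecidableEq m]
    [Fintype n] [DecidableEq n]
    (A : Matrix m m K) (D : Matrix n n K) :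
    (Matrix.fromBlocks A 0 0 D).rank = A.rank + D.rank := by
  let e := LinearEquiv.sumArrowLequivProdArrow m n K K
  have h1 : (Matrix.fromBlocks A 0 0 D).mulVecLin =
      (e.symm.toLinearMap ∘ₗ (A.mulVecLin.prodMap D.mulVecLin)) ∘ₗ e.toLinearMap := by
    apply LinearMap.ext
    intro v
    apply e.injective
    simp only [LinearMap.comp_apply, LinearEquiv.coe_coe, LinearEquiv.apply_symm_apply]
    ext i
    · simp [e, Matrix.fromBlocks_mulVec]
      rfl
    · simp [e, Matrix.fromBlocks_mulVec]
      rfl
  rw [Matrix.rank, Matrix.rank, Matrix.rank, h1, LinearMap.range_comp_of_range_eq_top _ e.range,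
    LinearMap.range_comp, LinearEquiv.finrank_map_eq e.symm, LinearMap.range_prodMap]
  let f : (A.mulVecLin.range.prod D.mulVecLin.range) ≃ₗ[K]
      A.mulVecLin.range × D.mulVecLin.range :=
    { toFun := fun x => (⟨x.1.1, x.2.1⟩, ⟨x.1.2, x.2.2⟩)
      map_add' := fun _ _ => rfl
      map_smul' := fun _ _ => rfl
      invFun := fun x => ⟨(x.1.1, x.2.1), ⟨x.1.2, x.2.2⟩⟩
      left_inv := fun _ => rfl
      right_inv := fun _ => rfl }
  rw [f.finrank_eq, Module.finrank_prod]

/-- The entries of the padded matrix. -/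
def entP (s : ℕ) (gs : List Gad) (i j : ℕ) : Entry :=
  if i < s ∨ j < s then (if i = j then c1 else c0) else ent gs (i - s) (j - s)

/-- The rows of the padded matrix. -/
def padRows (s : ℕ) (gs : List Gad) : List (List Entry) :=
  (List.range (s + dimOf gs)).map fun i => (List.range (s + dimOf gs)).map fun j => entP s gs i j

/-- The padded matrix. -/
def padMat (s : ℕ) (gs : List Gad) : VarMatrix where
  rows := padRows s gs
  square := by
    intro r hr
    unfold padRows at hr ⊢
    rw [List.mem_map] at hr
    obtain ⟨i, _, rfl⟩ := hr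
    simp

theorem length_padRows (s : ℕ) (gs : List Gad) :
    (padMat s gs).rows.length = s + (matOf gs).rows.length := by
  simp [padMat, padRows, matOf, rowsOf]

theorem padMat_at (s : ℕ) (gs : List Gad) (a : ℕ → ℝ) (i j : Fin (padMat s gs).rows.length) :
    (padMat s gs).at a i j = (entP s gs i j).eval a := by
  simp [VarMatrix.at, padMat, padRows]
  rfl

theorem rank_pad (s : ℕ) (gs : List Gad) (a : ℕ → ℝ) :
    ((padMat s gs).at a).rank = s + ((matOf gs).at a).rank := by
  let e : Fin s ⊕ Fin (matOf gs).rows.length ≃ Fin (padMat s gs).rows.length :=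
    finSumFinEquiv.trans (finCongr (length_padRows s gs).symm)
  have key : ((padMat s gs).at a).submatrix e e =
      Matrix.fromBlocks (1 : Matrix (Fin s) (Fin s) ℝ) 0 0 ((matOf gs).at a) := by
    ext i j
    rcases i with i | i <;> rcases j with j | j
    · simp only [Matrix.submatrix_apply, padMat_at, Matrix.fromBlocks_apply₁₁]
      change (entP s gs i j).eval a = _
      unfold entP
      rw [if_pos (Or.inl i.2), Matrix.one_apply]
      by_cases h : i = j
      · simp [h, c1, Entry.eval]
      · have h' : (i : ℕ) ≠ j := fun h' => h (Fin.ext h')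
        simp [h, h', c0, Entry.eval]
    · simp only [Matrix.submatrix_apply, padMat_at, Matrix.fromBlocks_apply₁₂]
      change (entP s gs i (s + j)).eval a = _
      unfold entP
      have h' : ¬ ((i : ℕ) = s + j) := by omega
      rw [if_pos (Or.inl i.2), if_neg h']
      simp [c0, Entry.eval]
    · simp only [Matrix.submatrix_apply, padMat_at, Matrix.fromBlocks_apply₂₁]
      change (entP s gs (s + i) j).eval a = _
      unfold entP
      have h' : ¬ (s + (i : ℕ) = j) := by omega
      rw [if_pos (Or.inr j.2), if_neg h']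
      simp [c0, Entry.eval]
    · simp only [Matrix.submatrix_apply, padMat_at, Matrix.fromBlocks_apply₂₂]
      change (entP s gs (s + i) (s + j)).eval a = _
      unfold entP
      rw [if_neg (by omega), matOf_at, Nat.add_sub_cancel_left, Nat.add_sub_cancel_left]
  have h2 : (((padMat s gs).at a).submatrix e e).rank = ((padMat s gs).at a).rank :=
    Matrix.rank_submatrix _ e e
  rw [← h2, key, rank_fromBlocks_diag, Matrix.rank_one, Fintype.card_fin]

/-- Translation of constraints. -/
def tr (c : ER.Con) : Con :=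
  if c.code.1 = 0 then (2, c.code.2.1, 0, 0)
  else if c.code.1 = 1 then (0, c.code.2.1, c.code.2.2.1, c.code.2.2.2)
  else (1, c.code.2.1, c.code.2.2.1, c.code.2.2.2)

theorem sat_tr (x : ℕ → ℝ) (c : ER.Con) :
    Pool.Agent.H606R2.MinRank.Sat x (tr c) ↔ c.Holds x := by
  cases c with
  | one i => simp [tr, ER.Con.code, Pool.Agent.H606R2.MinRank.Sat, ER.Con.Holds]
  | add i j k => simp [tr, ER.Con.code, Pool.Agent.H606R2.MinRank.Sat, ER.Con.Holds]
  | mul i j k => simp [tr, ER.Con.code, Pool.Agent.H606R2.MinRank.Sat, ER.Con.Holds]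

/-- The reduction. -/
def redR (r : ℕ) (S : List ER.Con) : VarMatrix := padMat (r - 2) ((S.map tr).flatMap gads)

theorem sat_iff (r : ℕ) (hr : 2 ≤ r) (S : List ER.Con) :
    ER.Sat S ↔ MinRank r (redR r S) := by
  unfold MinRank redR
  simp only [rank_pad]
  constructor
  · rintro ⟨x, hx⟩
    have h1 : (sysMat (S.map tr)).minRank ≤ 2 := minRank_le_two (x := x) (by
      intro c hc
      rw [List.mem_map] at hc
      obtain ⟨c', hc', rfl⟩ := hc
      exact (sat_tr x c').2 (hx c' hc'))
    have hne : {r | ∃ a : ℕ → ℝ, ((sysMat (S.map tr)).at a).rank = r}.Nonempty :=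
      ⟨_, fun _ => 0, rfl⟩
    obtain ⟨a, ha⟩ := Nat.sInf_mem hne
    change ((sysMat (S.map tr)).at a).rank = (sysMat (S.map tr)).minRank at ha
    refine ⟨a, ?_⟩
    have h2 : ((matOf ((S.map tr).flatMap gads)).at a).rank = (sysMat (S.map tr)).minRank := ha
    omega
  · rintro ⟨a, ha⟩
    by_contra hns
    have h4 : 4 ≤ (sysMat (S.map tr)).minRank := four_le_minRank (by
      rintro ⟨x, hx⟩
      exact hns ⟨x, fun c hc => (sat_tr x c).1 (hx _ (List.mem_map_of_mem hc))⟩)
    have h5 : (sysMat (S.map tr)).minRank ≤ ((matOf ((S.map tr).flatMap gads)).at a).rank :=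
      Nat.sInf_le ⟨a, rfl⟩
    omega

end Pool.Agent.Results.MP_51fc0b_lc.ConstantRankBound

namespace Pool.Agent.NPC.X246MR

open Pool.Agent.NPC Pool.Agent.NPC.H606MinRank Pool.Agent.H606R2.MinRank
open Pool.Agent.Results.MP_51fc0b_lc.ConstantRankBound

theorem poly_tr : Poly tr := by
  have h0 : Poly (fun c : ER.Con => c.code) := ER.poly_con_code Poly.id
  exact Poly.ite (Poly.decide_eq (Poly.fst h0) (Poly.const 0))
    (Poly.pair (Poly.const 2) (Poly.pair (Poly.fst (Poly.snd h0)) (Poly.const (0, 0))))
    (Poly.ite (Poly.decide_eq (Poly.fst h0) (Poly.const 1))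
      (Poly.pair (Poly.const 0) (Poly.snd h0)) (Poly.pair (Poly.const 1) (Poly.snd h0)))

theorem poly_padRows (s : ℕ) : Poly (padRows s) := by
  have hU : UPoly (fun gs : List Gad => s + dimOf gs) :=
    UPoly.add (UPoly.const s)
      (UPoly.add (UPoly.mul (UPoly.const 2) (UPoly.length Poly.id)) (UPoly.const 2))
  refine Poly.map (F := fun (gs : List Gad) i => (List.range (s + dimOf gs)).map
    fun j => entP s gs i j) hU.range ?_
  refine Poly.map (F := fun (p : List Gad × ℕ) j => entP s p.1 p.2 j)
    (hU.comp (Poly.fst Poly.id)).range ?_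
  have hi : Poly (fun p : (List Gad × ℕ) × ℕ => p.1.2) := Poly.snd (Poly.fst Poly.id)
  have hj : Poly (fun p : (List Gad × ℕ) × ℕ => p.2) := Poly.snd Poly.id
  have hs : Poly (fun _ : (List Gad × ℕ) × ℕ => s) := Poly.const s
  exact Poly.ite (Poly.decide_or (Poly.decide_lt hi hs) (Poly.decide_lt hj hs))
    (Poly.ite (Poly.decide_eq hi hj) (Poly.const c1) (Poly.const c0))
    (poly_ent (Poly.fst (Poly.fst Poly.id)) (Poly.sub hi hs) (Poly.sub hj hs))

theorem poly_redR (r : ℕ) : Poly (redR r) := by
  have h1 : Poly (fun S : List ER.Con => padRows (r - 2) ((S.map tr).flatMap gads)) :=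
    (poly_padRows (r - 2)).comp (Poly.flatMap (F := fun _ c => gads c)
      (Poly.map (F := fun _ c => tr c) Poly.id (poly_tr.comp (Poly.snd Poly.id)))
      (poly_gads.comp (Poly.snd Poly.id)))
  exact Poly.of_toT (h1.toT'.congr fun _ => rfl)

end Pool.Agent.NPC.X246MR

namespace Pool.Agent.Results.MP_51fc0b_lc.ConstantRankBound

open Pool.Agent.NPC Pool.Agent.H606R2.MinRank

/-- For every constant `r ≥ 2` (in particular for `r = 4`) the problem `MinRank_r` is
`∃ℝ`-hard. -/
theorem result : ∀ r : ℕ, 2 ≤ r → ER.ERHard (lang (MinRank r)) :=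
  fun r hr => ER.ERHard.of_sys (Pool.Agent.NPC.X246MR.poly_redR r) (sat_iff r hr)

end Pool.Agent.Results.MP_51fc0b_lc.ConstantRankBound
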